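import Mathlib

/-!
# Not every odd number is the distance from a power of two to the next odd semiprime

The classes `n ≡ a (mod d)` for the triples `(d, m, a)` in `cov` cover every integer at least
twice, the moduli `m` are pairwise coprime, and `2 ^ d ≡ 1 (mod m)`.  If `k ≡ -2 ^ a (mod m)` for
all the triples, then for every `n` two coprime numbers `u, v > 1` with `u v < k` divide
`2 ^ n + k`, so that `2 ^ n + k` has at least three prime factors.
-/

set_option autoImplicit false

namespace Pool.Agent.Results.MP_c49196_nt.NotAllOdd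

/-- `s` is a semiprime: a product of two primes, not necessarily distinct. -/
def Semiprime (s : ℕ) : Prop := ∃ p q : ℕ, p.Prime ∧ q.Prime ∧ s = p * q

/-- `a n` is the distance from `2 ^ n` to the smallest odd semiprime exceeding `2 ^ n`. -/
noncomputable def a (n : ℕ) : ℕ := sInf {s : ℕ | 2 ^ n < s ∧ Odd s ∧ Semiprime s} - 2 ^ n

/-- the triples `(d, m, a)` -/
def cov : List (ℕ × ℕ × ℕ) := [
  (2, 3, 1), (3, 7, 1), (4, 5, 0), (5, 31, 2), (8, 17, 6),
  (9, 73, 5), (10, 11, 6), (12, 13, 9), (15, 151, 3), (16, 257, 2),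
  (18, 19, 11), (20, 41, 14), (24, 241, 3), (30, 331, 0), (32, 65537, 26),
  (36, 37, 17), (36, 109, 35), (40, 61681, 4), (45, 631, 8), (45, 23311, 38),
  (48, 97, 39), (48, 673, 15), (60, 61, 20), (60, 1321, 50), (90, 18837001, 84),
  (96, 193, 42), (96, 22253377, 74), (144, 577, 80), (160, 414721, 104), (180, 181, 24),
  (180, 54001, 144), (180, 29247661, 164), (288, 1153, 202), (288, 6337, 106), (480, 23041, 344),
  (720, 8369281, 10), (1440, 37441, 298)]

/-- first member of the progression -/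
def k₀ : ℕ := 1016479731961167874126670510731843346078276678189237392864124281159907894679057698578656899630400522754213880433289

/-- difference of the progression -/
def M : ℕ := 1026066604839353984192495393271598161698915251134093085836761713667211336461230760956744302547510867895302331119830

theorem cov_two : ∀ r < 1440,
    2 ≤ (cov.filter (fun x => decide (r % x.1 = x.2.2))).length := by decide +kernel

theorem cov_coprime : cov.Pairwise (fun x y => Nat.Coprime x.2.1 y.2.1) := by decide +kernel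

theorem cov_prod : ∀ x ∈ cov, ∀ y ∈ cov, x.2.1 * y.2.1 < k₀ := by decide +kernel

theorem cov_mod : ∀ x ∈ cov, 1 < x.2.1 ∧ 1440 % x.1 = 0 ∧ 2 ^ x.1 % x.2.1 = 1 ∧
    (2 ^ x.2.2 + k₀) % x.2.1 = 0 ∧ M % x.2.1 = 0 := by decide +kernel

theorem dvd_of_mem {x : ℕ × ℕ × ℕ} (hx : x ∈ cov) {n t : ℕ} (hn : n % 1440 % x.1 = x.2.2) :
    x.2.1 ∣ 2 ^ n + (k₀ + M * t) := by
  obtain ⟨h1, h2, h3, h4, h5⟩ := cov_mod x hx
  have hd : x.1 ∣ 1440 := Nat.dvd_of_mod_eq_zero h2
  rw [Nat.mod_mod_of_dvd n hd] at hn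
  have e1 : 2 ^ n ≡ 2 ^ x.2.2 [MOD x.2.1] := by
    have hq : n = x.1 * (n / x.1) + x.2.2 := by rw [← hn]; exact (Nat.div_add_mod n x.1).symm
    rw [hq, pow_add, pow_mul]
    have e2 : 2 ^ x.1 ≡ 1 [MOD x.2.1] := by
      unfold Nat.ModEq
      rw [h3, Nat.mod_eq_of_lt h1]
    have e3 := (e2.pow (n / x.1)).mul_right (2 ^ x.2.2)
    rwa [one_pow, one_mul] at e3
  have e4 : M * t ≡ 0 [MOD x.2.1] :=
    (Nat.modEq_zero_iff_dvd).2 ((Nat.dvd_of_mod_eq_zero h5).mul_right t)
  have e5 : 2 ^ n + (k₀ + M * t) ≡ 2 ^ x.2.2 + (k₀ + 0) [MOD x.2.1] :=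
    e1.add ((Nat.ModEq.refl k₀).add e4)
  rw [← Nat.modEq_zero_iff_dvd]
  exact e5.trans (by unfold Nat.ModEq; rw [add_zero, h4, Nat.zero_mod])

theorem exists_two (r : ℕ) (hr : r < 1440) : ∃ x ∈ cov, ∃ y ∈ cov,
    Nat.Coprime x.2.1 y.2.1 ∧ r % x.1 = x.2.2 ∧ r % y.1 = y.2.2 := by
  have h := cov_two r hr
  have hp : (cov.filter (fun x => decide (r % x.1 = x.2.2))).Pairwise
      (fun x y => Nat.Coprime x.2.1 y.2.1) := cov_coprime.sublist List.filter_sublist
  have hmem : ∀ z ∈ cov.filter (fun x => decide (r % x.1 = x.2.2)),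
      z ∈ cov ∧ r % z.1 = z.2.2 := by
    intro z hz
    rw [List.mem_filter] at hz
    exact ⟨hz.1, by simpa using hz.2⟩
  generalize cov.filter (fun x => decide (r % x.1 = x.2.2)) = l at h hp hmem
  match l, h, hp, hmem with
  | x :: y :: l', _, hp, hmem =>
    have hx := hmem x (by simp)
    have hy := hmem y (by simp)
    exact ⟨x, hx.1, y, hy.1, (List.pairwise_cons.1 hp).1 y (by simp), hx.2, hy.2⟩

/-- `2 ^ n + k₀ + M t` has at least three prime factors. -/
theorem three_le (n t : ℕ) : ∃ u v w : ℕ, 1 < u ∧ 1 < v ∧ 1 < w ∧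
    2 ^ n + (k₀ + M * t) = u * v * w := by
  obtain ⟨x, hx, y, hy, hc, hx2, hy2⟩ := exists_two (n % 1440) (Nat.mod_lt _ (by norm_num))
  have h1 := dvd_of_mem (t := t) hx hx2
  have h2 := dvd_of_mem (t := t) hy hy2
  obtain ⟨w, hw⟩ := hc.mul_dvd_of_dvd_of_dvd h1 h2
  refine ⟨x.2.1, y.2.1, w, (cov_mod x hx).1, (cov_mod y hy).1, ?_, hw⟩
  have h3 := cov_prod x hx y hy
  by_contra hcon
  have hw1 : w ≤ 1 := by omega
  have h4 : x.2.1 * y.2.1 * w ≤ x.2.1 * y.2.1 * 1 := Nat.mul_le_mul_left _ hw1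
  have h5 : 0 < 2 ^ n := by positivity
  omega

theorem not_semiprime (n t : ℕ) : ¬ Semiprime (2 ^ n + (k₀ + M * t)) := by
  rintro ⟨p, q, hp, hq, h⟩
  obtain ⟨u, v, w, hu, hv, hw, h'⟩ := three_le n t
  have e : p * q = u * v * w := by rw [← h, ← h']
  have hO : ArithmeticFunction.cardFactors (p * q) = 2 := by
    rw [ArithmeticFunction.cardFactors_mul hp.ne_zero hq.ne_zero,
      ArithmeticFunction.cardFactors_apply_prime hp, ArithmeticFunction.cardFactors_apply_prime hq]
  have hpos : ∀ z : ℕ, 1 < z → 1 ≤ ArithmeticFunction.cardFactors z := by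
    intro z hz
    by_contra hcon
    have h0 : ArithmeticFunction.cardFactors z = 0 := by omega
    rw [ArithmeticFunction.cardFactors_eq_zero_iff_eq_zero_or_one] at h0
    omega
  rw [e, ArithmeticFunction.cardFactors_mul (by positivity) (by omega),
    ArithmeticFunction.cardFactors_mul (by omega) (by omega)] at hO
  have := hpos u hu
  have := hpos v hv
  have := hpos w hw
  omega

/-- **Not every odd number is a value of `a`.**  There is an infinite arithmetic progression of odd
positive integers none of which is a value of `a`; for its terms `k` no number `2 ^ n + k` is a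
semiprime. -/
theorem result : ∃ k₀ M : ℕ, 0 < M ∧ ∀ t : ℕ, Odd (k₀ + M * t) ∧
    (∀ n : ℕ, a n ≠ k₀ + M * t) ∧ ∀ n : ℕ, ¬ Semiprime (2 ^ n + (k₀ + M * t)) := by
  refine ⟨k₀, M, by decide +kernel, fun t => ⟨?_, fun n hn => ?_, fun n => not_semiprime n t⟩⟩
  · have h1 : Odd k₀ := by decide +kernel
    have h2 : Even M := by decide +kernel
    exact h1.add_even (h2.mul_right t)
  · have hk : 0 < k₀ := by decide +kernel
    set S : Set ℕ := {s : ℕ | 2 ^ n < s ∧ Odd s ∧ Semiprime s} with hS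
    have hn' : sInf S - 2 ^ n = k₀ + M * t := hn
    have h0 : 0 < sInf S - 2 ^ n := by rw [hn']; exact Nat.add_pos_left hk _
    have hpos : 0 < sInf S := lt_of_lt_of_le h0 (Nat.sub_le _ _)
    have hne : S.Nonempty := Nat.nonempty_of_pos_sInf hpos
    obtain ⟨h3, -, h4⟩ := Nat.sInf_mem hne
    have h5 : sInf S = 2 ^ n + (k₀ + M * t) := by rw [← hn']; exact (Nat.add_sub_cancel' h3.le).symm
    rw [h5] at h4
    exact not_semiprime n t h4

end Pool.Agent.Results.MP_c49196_nt.NotAllOdd
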